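import Pool.Agent.Y773.D4.Def

/-!
# Project D4 (helper773), job D4-REL: the relative norm of a quadratic extension of the Gaussian field

Owner helper936.
-/

set_option autoImplicit false

open NumberField

namespace Pool.Agent.Y936.D4.Rel

open Pool.Agent.Y773.D4

section norm

/-- the basis `1, i` -/
noncomputable def bs : Module.Basis (Fin 2) ℤ GaussianInt :=
  Module.Basis.ofEquivFun
    { toFun := fun z => ![z.re, z.im]
      invFun := fun v => ⟨v 0, v 1⟩
      left_inv := fun z => by simp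
      right_inv := fun v => by
        ext i
        fin_cases i <;> simp
      map_add' := fun x y => by simp
      map_smul' := fun c x => by
        ext i
        fin_cases i <;> simp }

theorem bs0 : bs 0 = 1 := by
  simp only [bs, Module.Basis.coe_ofEquivFun]
  ext <;> simp [Zsqrtd.re_one, Zsqrtd.im_one]

theorem bs1 : bs 1 = ⟨0, 1⟩ := by
  simp only [bs, Module.Basis.coe_ofEquivFun]
  ext <;> simp

theorem bs_repr (z : GaussianInt) (i : Fin 2) : bs.repr z i = ![z.re, z.im] i := by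
  simp [bs, Module.Basis.ofEquivFun]

instance : Module.Free ℤ GaussianInt := Module.Free.of_basis bs

theorem norm_int (z : GaussianInt) : Algebra.norm ℤ z = z.norm := by
  rw [Algebra.norm_eq_matrix_det bs, Matrix.det_fin_two]
  simp only [Algebra.leftMulMatrix_eq_repr_mul, bs0, bs1, bs_repr, mul_one]
  simp [Zsqrtd.norm_def]

instance : Module.Finite ℤ GaussianInt := Module.Finite.of_basis bs

theorem absNorm_span (z : GaussianInt) : Ideal.absNorm (Ideal.span {z}) = z.norm.natAbs := by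
  rw [Ideal.absNorm_span_singleton, norm_int]

theorem nI_eq (𝔫 : Ideal GaussianInt) : nI 𝔫 = Ideal.absNorm 𝔫 := by
  conv_rhs => rw [← Ideal.span_singleton_generator 𝔫]
  rw [absNorm_span]
  rfl

end norm

section gal

theorem alg_inj (S : Type) [CommRing S] [IsDomain S] [CharZero S] [Algebra GaussianInt S] :
    Function.Injective (algebraMap GaussianInt S) := by
  rw [injective_iff_map_eq_zero]
  intro z hz
  have h1 : algebraMap GaussianInt S ((z.norm : ℤ) : GaussianInt) = 0 := by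
    rw [Zsqrtd.norm_eq_mul_conj, map_mul, hz, zero_mul]
  rw [map_intCast, Int.cast_eq_zero] at h1
  exact (GaussianInt.norm_eq_zero).1 h1

theorem sg_coe {M : Type} [Field M] [NumberField M] (σ : M ≃ₐ[ℚ] M) (x : 𝓞 M) :
    ((sg σ x : 𝓞 M) : M) = σ (x : M) := rfl

/-- the field of fractions -/
abbrev K : Type := FractionRing GaussianInt

theorem frank_ge : Module.finrank ℚ K ≠ 1 := by
  intro h
  obtain ⟨q, hq⟩ := (finrank_eq_one_iff_of_nonzero' (K := ℚ) (V := K) 1 one_ne_zero).1 h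
    (algebraMap GaussianInt K ⟨0, 1⟩)
  have h1 : (algebraMap GaussianInt K ⟨0, 1⟩) ^ 2 = -1 := by
    rw [← map_pow, ← map_one (algebraMap GaussianInt K), ← map_neg]
    congr 1
  rw [← hq] at h1
  have h2 : algebraMap ℚ K (q ^ 2) = algebraMap ℚ K (-1) := by
    rw [map_pow, map_neg, map_one, ← h1, Algebra.smul_def, mul_one]
  have h3 := (algebraMap ℚ K).injective h2
  nlinarith [sq_nonneg q]

end gal

section gal2

variable {M : Type} [Field M] [NumberField M] [Algebra GaussianInt (𝓞 M)]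
  [Algebra GaussianInt M] [IsScalarTower GaussianInt (𝓞 M) M] [Algebra K M]
  [IsScalarTower GaussianInt K M]

theorem lift_fix (σ : M ≃ₐ[ℚ] M)
    (hfix : ∀ z : GaussianInt,
      sg σ (algebraMap GaussianInt (𝓞 M) z) = algebraMap GaussianInt (𝓞 M) z) (k : K) :
    σ (algebraMap K M k) = algebraMap K M k := by
  have h1 : ∀ z : GaussianInt, σ (algebraMap K M (algebraMap GaussianInt K z)) =
      algebraMap K M (algebraMap GaussianInt K z) := by
    intro z
    rw [← IsScalarTower.algebraMap_apply, IsScalarTower.algebraMap_apply GaussianInt (𝓞 M) M]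
    exact congrArg (fun x : 𝓞 M => (x : M)) (hfix z)
  obtain ⟨a, b, -, rfl⟩ := IsFractionRing.div_surjective (A := GaussianInt) k
  rw [map_div₀, map_div₀, h1, h1]

/-- the automorphism over `K` -/
noncomputable def sK (σ : M ≃ₐ[ℚ] M)
    (hfix : ∀ z : GaussianInt,
      sg σ (algebraMap GaussianInt (𝓞 M) z) = algebraMap GaussianInt (𝓞 M) z) : M ≃ₐ[K] M :=
  AlgEquiv.ofRingEquiv (f := (σ : M ≃+* M)) (lift_fix σ hfix)

theorem sK_apply (σ : M ≃ₐ[ℚ] M)
    (hfix : ∀ z : GaussianInt,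
      sg σ (algebraMap GaussianInt (𝓞 M) z) = algebraMap GaussianInt (𝓞 M) z) (x : M) :
    sK σ hfix x = σ x := rfl

theorem sK_ne (σ : M ≃ₐ[ℚ] M) (hσ : σ ≠ 1)
    (hfix : ∀ z : GaussianInt,
      sg σ (algebraMap GaussianInt (𝓞 M) z) = algebraMap GaussianInt (𝓞 M) z) :
    sK σ hfix ≠ 1 := by
  intro h
  refine hσ (AlgEquiv.ext fun x => ?_)
  rw [← sK_apply σ hfix, h]
  rfl

omit [Algebra GaussianInt (𝓞 M)] [Algebra GaussianInt M] [IsScalarTower GaussianInt (𝓞 M) M]
  [IsScalarTower GaussianInt K M] in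
theorem sctower : IsScalarTower ℚ K M :=
  IsScalarTower.of_algebraMap_eq' (Subsingleton.elim _ _)

omit [Algebra GaussianInt (𝓞 M)] [Algebra GaussianInt M] [IsScalarTower GaussianInt (𝓞 M) M]
  [IsScalarTower GaussianInt K M] in
theorem findim : FiniteDimensional K M := by
  have := sctower (M := M)
  exact Module.Finite.of_restrictScalars_finite ℚ K M

open Classical in
theorem card_two (hd : Module.finrank ℚ M = 4) (σ : M ≃ₐ[ℚ] M) (hσ : σ ≠ 1)
    (hfix : ∀ z : GaussianInt,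
      sg σ (algebraMap GaussianInt (𝓞 M) z) = algebraMap GaussianInt (𝓞 M) z) :
    Module.finrank K M = 2 ∧ ∀ τ : M ≃ₐ[K] M, τ = 1 ∨ τ = sK σ hfix := by
  have : FiniteDimensional K M := findim
  have := sctower (M := M)
  have h1 := Module.finrank_mul_finrank ℚ K M
  rw [hd] at h1
  have h2 : Fintype.card Gal(M/K) ≤ Module.finrank K M := AlgEquiv.card_le
  have h3 : ({1, sK σ hfix} : Finset Gal(M/K)).card = 2 := by
    rw [Finset.card_insert_of_notMem, Finset.card_singleton]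
    rw [Finset.mem_singleton]
    exact fun h => sK_ne σ hσ hfix h.symm
  have h4 : ({1, sK σ hfix} : Finset Gal(M/K)).card ≤ Fintype.card Gal(M/K) :=
    Finset.card_le_univ _
  have h5 := frank_ge
  have h6 : Module.finrank K M = 2 := by
    have h7 : Module.finrank ℚ K ≤ 4 := Nat.le_of_dvd (by norm_num) ⟨_, h1.symm⟩
    have h8 : Module.finrank K M ≤ 4 := Nat.le_of_dvd (by norm_num) ⟨_, by rw [mul_comm]; exact h1.symm⟩
    have h9 : 2 ≤ Module.finrank K M := by omega
    interval_cases (Module.finrank K M) <;> omega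
  refine ⟨h6, fun τ => ?_⟩
  have h7 : ({1, sK σ hfix} : Finset Gal(M/K)) = Finset.univ :=
    Finset.eq_univ_of_card _ (by omega)
  have h8 : τ ∈ ({1, sK σ hfix} : Finset Gal(M/K)) := by rw [h7]; exact Finset.mem_univ _
  simpa using h8

theorem gal (hd : Module.finrank ℚ M = 4) (σ : M ≃ₐ[ℚ] M) (hσ : σ ≠ 1)
    (hfix : ∀ z : GaussianInt,
      sg σ (algebraMap GaussianInt (𝓞 M) z) = algebraMap GaussianInt (𝓞 M) z) :
    IsGalois K M := by
  classical
  have : FiniteDimensional K M := findim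
  obtain ⟨h1, h2⟩ := card_two hd σ hσ hfix
  apply IsGalois.of_card_aut_eq_finrank
  rw [h1, Nat.card_eq_fintype_card, ← Finset.card_univ]
  have h3 : (Finset.univ : Finset Gal(M/K)) = {1, sK σ hfix} := by
    ext τ
    simpa using h2 τ
  rw [h3, Finset.card_insert_of_notMem, Finset.card_singleton]
  rw [Finset.mem_singleton]
  exact fun h => sK_ne σ hσ hfix h.symm

theorem sK_sq (hd : Module.finrank ℚ M = 4) (σ : M ≃ₐ[ℚ] M) (hσ : σ ≠ 1)
    (hfix : ∀ z : GaussianInt,
      sg σ (algebraMap GaussianInt (𝓞 M) z) = algebraMap GaussianInt (𝓞 M) z) (x : M) :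
    σ (σ x) = x := by
  obtain ⟨-, h2⟩ := card_two hd σ hσ hfix
  rcases h2 (sK σ hfix * sK σ hfix) with h | h
  · have h3 := congrArg (fun f : M ≃ₐ[K] M => f x) h
    exact h3
  · exact absurd (mul_eq_left.1 h) (sK_ne σ hσ hfix)

theorem fixed (hd : Module.finrank ℚ M = 4) (σ : M ≃ₐ[ℚ] M) (hσ : σ ≠ 1)
    (hfix : ∀ z : GaussianInt,
      sg σ (algebraMap GaussianInt (𝓞 M) z) = algebraMap GaussianInt (𝓞 M) z) (x : 𝓞 M)
    (hx : sg σ x = x) : ∃ z : GaussianInt, algebraMap GaussianInt (𝓞 M) z = x := by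
  have : FiniteDimensional K M := findim
  have hG : IsGalois K M := gal hd σ hσ hfix
  obtain ⟨-, h2⟩ := card_two hd σ hσ hfix
  obtain ⟨k, hk⟩ := (IsGalois.mem_range_algebraMap_iff_fixed (F := K) (x : M)).2 (by
    intro f
    rcases h2 f with rfl | rfl
    · rfl
    · exact congrArg (fun x : 𝓞 M => (x : M)) hx)
  have h3 : IsIntegral GaussianInt k := by
    have h4 : IsIntegral GaussianInt (algebraMap K M k) := by
      rw [hk]
      have h5 : IsIntegral ℤ (x : M) := x.2
      exact h5.tower_top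
    exact (isIntegral_algHom_iff (IsScalarTower.toAlgHom GaussianInt K M)
      (algebraMap K M).injective).1 h4
  obtain ⟨z, rfl⟩ := IsIntegrallyClosed.isIntegral_iff.1 h3
  refine ⟨z, RingOfIntegers.ext ?_⟩
  rw [← hk, ← IsScalarTower.algebraMap_apply, IsScalarTower.algebraMap_apply GaussianInt (𝓞 M) M]

end gal2

section fin

theorem exists_pow {M : Type} [Field M] [NumberField M] (𝔞 : Ideal (𝓞 M)) (h0 : 𝔞 ≠ ⊥) :
    ∃ (h : ℕ) (x : 𝓞 M), h ≠ 0 ∧ 𝔞 ^ h = Ideal.span {x} := by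
  let g := ClassGroup.mk0 (⟨𝔞, mem_nonZeroDivisors_of_ne_zero h0⟩ : nonZeroDivisors (Ideal (𝓞 M)))
  have h1 : g ^ (Fintype.card (ClassGroup (𝓞 M))) = 1 := pow_card_eq_one
  rw [← map_pow, ClassGroup.mk0_eq_one_iff] at h1
  obtain ⟨x, hx⟩ := h1
  exact ⟨Fintype.card (ClassGroup (𝓞 M)), x, Fintype.card_ne_zero, hx⟩

theorem pow_inj {R : Type} [CommRing R] [IsDedekindDomain R] {I J : Ideal R} {h : ℕ}
    (hh : h ≠ 0) (e : I ^ h = J ^ h) : I = J := by
  have h1 : I ∣ J := (UniqueFactorizationMonoid.pow_dvd_pow_iff_dvd hh).1 (dvd_of_eq e)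
  have h2 : J ∣ I := (UniqueFactorizationMonoid.pow_dvd_pow_iff_dvd hh).1 (dvd_of_eq e.symm)
  exact le_antisymm (Ideal.dvd_iff_le.1 h2) (Ideal.dvd_iff_le.1 h1)

theorem t_rel : St_REL := by
  classical
  intro M _ _ _ hd σ hσ hfix
  have inj := alg_inj (𝓞 M)
  have f1 : FaithfulSMul GaussianInt (𝓞 M) := (faithfulSMul_iff_algebraMap_injective _ _).2 inj
  have f2 : Module.Finite GaussianInt (𝓞 M) :=
    Module.Finite.of_restrictScalars_finite ℤ GaussianInt (𝓞 M)
  have f3 : Module.IsTorsionFree GaussianInt (𝓞 M) := inferInstance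
  let a1 : Algebra GaussianInt M :=
    ((algebraMap (𝓞 M) M).comp (algebraMap GaussianInt (𝓞 M))).toAlgebra
  have s1 : IsScalarTower GaussianInt (𝓞 M) M := IsScalarTower.of_algebraMap_eq' rfl
  have f4 : FaithfulSMul GaussianInt M :=
    (faithfulSMul_iff_algebraMap_injective _ _).2 ((RingOfIntegers.coe_injective).comp inj)
  let a2 : Algebra K M := FractionRing.liftAlgebra GaussianInt M
  have s2 : IsScalarTower GaussianInt K M := FractionRing.isScalarTower_liftAlgebra _ _
  have f5 : FiniteDimensional K M := findim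
  have f6 : IsGalois K M := gal hd σ hσ hfix
  have f7 : IsIntegralClosure (𝓞 M) GaussianInt M := IsIntegralClosure.tower_top (R := ℤ)
  have hN : ∀ x : 𝓞 M,
      algebraMap GaussianInt (𝓞 M) (Algebra.intNorm GaussianInt (𝓞 M) x) = x * sg σ x := by
    intro x
    apply RingOfIntegers.ext
    have h1 := Algebra.algebraMap_intNorm (A := GaussianInt) (K := K) (L := M) (B := 𝓞 M) x
    have h2 : algebraMap K M (Algebra.norm K (algebraMap (𝓞 M) M x)) =
      ∏ f : Gal(M/K), f (algebraMap (𝓞 M) M x) := Algebra.norm_eq_prod_automorphisms ..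
    have h3 : (Finset.univ : Finset Gal(M/K)) = {1, sK σ hfix} := by
      ext τ
      simpa using (card_two hd σ hσ hfix).2 τ
    rw [h3, Finset.prod_insert (by
      rw [Finset.mem_singleton]
      exact fun h => sK_ne σ hσ hfix h.symm), Finset.prod_singleton, ← h1] at h2
    rw [← IsScalarTower.algebraMap_apply, IsScalarTower.algebraMap_apply GaussianInt (𝓞 M) M] at h2
    exact h2
  have hsq : ∀ x : 𝓞 M, sg σ (sg σ x) = x := fun x =>
    RingOfIntegers.ext (sK_sq hd σ hσ hfix (x : M))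
  have hNs : ∀ x : 𝓞 M, Ideal.relNorm GaussianInt (Ideal.span {x}) =
      Ideal.span {Algebra.intNorm GaussianInt (𝓞 M) x} := fun x => Ideal.relNorm_singleton _ x
  have hcj : ∀ (𝔞 : Ideal (𝓞 M)) (h : ℕ), cj σ (𝔞 ^ h) = (cj σ 𝔞) ^ h := fun 𝔞 h =>
    Ideal.map_pow _ _ _
  have hcs : ∀ x : 𝓞 M, cj σ (Ideal.span {x}) = Ideal.span {sg σ x} := by
    intro x
    rw [cj, Ideal.map_span, Set.image_singleton]
  have h2 : ∀ 𝔞 : Ideal (𝓞 M), (Ideal.relNorm GaussianInt 𝔞).map
      (algebraMap GaussianInt (𝓞 M)) = 𝔞 * cj σ 𝔞 := by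
    intro 𝔞
    by_cases h0 : 𝔞 = ⊥
    · rw [h0, Ideal.relNorm_bot, Ideal.map_bot, Ideal.bot_mul]
    obtain ⟨h, x, hh, hx⟩ := exists_pow 𝔞 h0
    apply pow_inj hh
    rw [← Ideal.map_pow, ← map_pow, mul_pow, ← hcj, hx, hNs, Ideal.map_span, Set.image_singleton,
      hN, hcs, Ideal.span_singleton_mul_span_singleton]
  have hth : ∃ y : 𝓞 M, sg σ y ≠ y := by
    by_contra hc
    push Not at hc
    refine hσ (AlgEquiv.ext fun x => ?_)
    obtain ⟨a, b, -, rfl⟩ := IsFractionRing.div_surjective (A := 𝓞 M) x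
    have h3 : ∀ y : 𝓞 M, σ (algebraMap (𝓞 M) M y) = algebraMap (𝓞 M) M y := fun y =>
      congrArg (fun x : 𝓞 M => (x : M)) (hc y)
    rw [map_div₀, h3, h3]
    rfl
  refine ⟨Ideal.relNorm GaussianInt, hd, inj, hsq, hfix, fun x => ⟨_, hN x⟩, ?_, h2, ?_, ?_, ?_⟩
  · intro x z hz
    rw [hNs]
    rw [← hN x] at hz
    rw [inj hz]
  · intro 𝔞
    rw [nI_eq, Ideal.absNorm_relNorm]
  · intro 𝔞
    exact Ideal.relNorm_map_algEquiv (R := GaussianInt) (AlgEquiv.ofRingEquiv (f := sg σ) hfix) 𝔞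
  · obtain ⟨y, hy⟩ := hth
    have hs : sg σ (y - sg σ y) = -(y - sg σ y) := by
      rw [map_sub, hsq]
      ring
    have hy0 : y - sg σ y ≠ 0 := fun h => hy (sub_eq_zero.1 h).symm
    have hsqq : (y - sg σ y) ^ 2 = algebraMap GaussianInt (𝓞 M)
        (-Algebra.intNorm GaussianInt (𝓞 M) (y - sg σ y)) := by
      rw [map_neg, hN, hs]
      ring
    have ha0 : -Algebra.intNorm GaussianInt (𝓞 M) (y - sg σ y) ≠ 0 := by
      intro h
      rw [h, map_zero] at hsqq
      exact hy0 (pow_eq_zero_iff (two_ne_zero)|>.1 hsqq)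
    refine ⟨y - sg σ y, -Algebra.intNorm GaussianInt (𝓞 M) (y - sg σ y),
      2 * -Algebra.intNorm GaussianInt (𝓞 M) (y - sg σ y), ha0, mul_ne_zero two_ne_zero ha0,
      hsqq, hs, fun x => ?_⟩
    obtain ⟨a, ha⟩ := fixed hd σ hσ hfix (x + sg σ x) (by rw [map_add, hsq, add_comm])
    obtain ⟨b, hb⟩ := fixed hd σ hσ hfix ((x - sg σ x) * (y - sg σ y)) (by
      rw [map_mul, hs, map_sub, hsq]
      ring)
    refine ⟨-Algebra.intNorm GaussianInt (𝓞 M) (y - sg σ y) * a, b, ?_⟩
    rw [map_mul, map_mul, ← hsqq, ha, hb, map_ofNat]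
    ring

end fin

end Pool.Agent.Y936.D4.Rel
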